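import Pool.Agent.H92.RepH2

set_option autoImplicit false

/-- A representing system of Cauchy kernels in `H^2` whose nodes lie on the radius `(0,1)` and
converge to the single boundary point `1`. -/
theorem Pool.Agent.Results.MP_321233_an.OnePoint.result :
    ∃ Λ : ℕ → ℂ, Function.Injective Λ ∧ (∀ n, ‖Λ n‖ < 1) ∧ (∀ n, (Λ n).im = 0 ∧ 0 < (Λ n).re) ∧
      Filter.Tendsto Λ Filter.atTop (nhds 1) ∧
      ∀ f : ℕ → ℂ, Summable (fun n => ‖f n‖ ^ 2) →
        ∃ c : ℕ → ℂ, Filter.Tendsto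
          (fun N : ℕ => ∑' n : ℕ,
            ‖f n - ∑ k ∈ Finset.range N, c k * (starRingEnd ℂ (Λ k)) ^ n‖ ^ 2)
          Filter.atTop (nhds 0) := by
  obtain ⟨Λ, hinj, hpos, hlim, hrep⟩ := Pool.Agent.H92.RepH2.main
  refine ⟨fun n => (Λ n : ℂ), Complex.ofReal_injective.comp hinj, fun n => ?_,
    fun n => ⟨by simp, by simpa using (hpos n).1⟩, ?_, fun f hf => ?_⟩
  · simp only [Complex.norm_real, Real.norm_eq_abs]
    rw [abs_of_pos (hpos n).1]; exact (hpos n).2
  · exact_mod_cast (Complex.continuous_ofReal.tendsto 1).comp hlim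
  · simpa only [Complex.conj_ofReal] using hrep f hf
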